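import Pool.Agent.Lib.MP_3c943f_co.NoSefe
import Pool.Agent.Lib.MP_3c943f_co.Tree

/-!
# The Hanani–Tutte criterion for simultaneous embeddings with fixed edges fails

The counterexample has the vertices `c₀, c₁, a_k, b_k` (`k = 0, 1, 2`); common edges `c₀ c₁`, `c₀ a_k`,
`c₁ b_k`; the first graph has in addition `a_k b_k`, the second one `a_k b_(k+1)` (indices mod 3).
-/

namespace Pool.Agent.Results.MP_3c943f_co.HananiTutteSEFE

open Pool.Agent.Lib.MP_3c943f_co

/-- There are two planar graphs on the same eight vertices whose shared graph is a tree of maximum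
degree at most four, with `siocr = 0`, which admit no simultaneous embedding with fixed edges. -/
theorem result : ∃ G₁ G₂ : SimpleGraph (Fin 8),
    (∃ D : PlaneDrawing G₁, D.IsPlanar) ∧ (∃ D : PlaneDrawing G₂, D.IsPlanar) ∧
    (G₁ ⊓ G₂).IsTree ∧ (∀ v, ((G₁ ⊓ G₂).neighborSet v).ncard ≤ 4) ∧
    siocr G₁ G₂ = 0 ∧ ¬ AdmitsSEFE G₁ G₂ :=
  ⟨GA, GB, planar_A, planar_B, inf_isTree, inf_degree, siocr_eq_zero, not_admitsSEFE⟩

end Pool.Agent.Results.MP_3c943f_co.HananiTutteSEFE
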